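import Pool.Agent.H34.TAM.Stmts2

/-!
Board aut, row COM: commutation of derivations and free difference quotients
-/

set_option autoImplicit false

noncomputable section

namespace Pool.AUT

open Pool.CGR Pool.CGS Pool.TAM MulOpposite

open scoped TensorProduct

namespace COM

variable {m : ℕ}

lemma der_one {B : Type} [Ring B] [Algebra ℂ B] {δ : B →ₗ[ℂ] B} (h : IsDer δ) : δ 1 = 0 := by
  have h1 := h 1 1
  rw [mul_one, mul_one, one_mul] at h1
  exact left_eq_add.1 h1

lemma pd_one {D : Fin m → (Fr m →ₗ[ℂ] Te m)} (h : IsPd D) (k : Fin m) : D k 1 = 0 := by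
  have h1 := h.mul k 1 1
  rw [mul_one, op_one, ← Algebra.TensorProduct.one_def, one_mul] at h1
  exact left_eq_add.1 h1

lemma d2_left (δ : Fr m →ₗ[ℂ] Fr m) (h : IsDer δ) (a : Fr m) :
    d2 δ (a ⊗ₜ[ℂ] (1 : (Fr m)ᵐᵒᵖ)) = δ a ⊗ₜ[ℂ] (1 : (Fr m)ᵐᵒᵖ) := by
  have h1 : uo m (1 : (Fr m)ᵐᵒᵖ) = 1 := rfl
  rw [d2, LinearMap.add_apply, TensorProduct.map_tmul, TensorProduct.map_tmul,
    LinearMap.comp_apply, LinearMap.comp_apply, h1, der_one h, map_zero, TensorProduct.tmul_zero,
    add_zero]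
  rfl

lemma d2_right (δ : Fr m →ₗ[ℂ] Fr m) (h : IsDer δ) (b : Fr m) :
    d2 δ ((1 : Fr m) ⊗ₜ[ℂ] op b) = (1 : Fr m) ⊗ₜ[ℂ] op (δ b) := by
  rw [d2, LinearMap.add_apply, TensorProduct.map_tmul, TensorProduct.map_tmul, der_one h,
    TensorProduct.zero_tmul, zero_add]
  rfl

end COM

open COM in
theorem com_thm (hTDR : TDRStmt) : COMStmt := by
  intro m D hD δ hδ f k
  have hd2 : IsDer (d2 δ) := (hTDR m).1 δ hδ
  induction f using FreeAlgebra.induction with
  | grade0 r =>
    have h1 : δ (algebraMap ℂ (Fr m) r) = 0 := by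
      rw [Algebra.algebraMap_eq_smul_one, map_smul, der_one hδ, smul_zero]
    have h2 : ∀ l, D l (algebraMap ℂ (Fr m) r) = 0 := by
      intro l
      rw [Algebra.algebraMap_eq_smul_one, map_smul, pd_one hD, smul_zero]
    simp only [h1, h2, map_zero, zero_mul, Finset.sum_const_zero, add_zero]
  | grade1 x =>
    have h1 : d2 δ (D k (io x)) = 0 := by
      rw [hD.gen]
      split_ifs
      · exact der_one hd2
      · exact map_zero _
    have h2 : ∑ l, D l (io x) * D k (δ (io l)) = D k (δ (io x)) := by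
      rw [Finset.sum_eq_single x]
      · rw [hD.gen, if_pos rfl, one_mul]
      · intro b _ hb
        rw [hD.gen, if_neg (Ne.symm hb), zero_mul]
      · intro h
        exact absurd (Finset.mem_univ x) h
    change D k (δ (io x)) = d2 δ (D k (io x)) + ∑ l, D l (io x) * D k (δ (io l))
    rw [h1, h2, zero_add]
  | mul a b ha hb =>
    rw [hδ, map_add, hD.mul, hD.mul, hD.mul, map_add, hd2, hd2, d2_left δ hδ, d2_right δ hδ, ha, hb]
    have h1 : ∑ l, D l (a * b) * D k (δ (io l)) =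
        (a ⊗ₜ[ℂ] (1 : (Fr m)ᵐᵒᵖ)) * ∑ l, D l b * D k (δ (io l)) +
          ((1 : Fr m) ⊗ₜ[ℂ] op b) * ∑ l, D l a * D k (δ (io l)) := by
      rw [Finset.mul_sum, Finset.mul_sum, ← Finset.sum_add_distrib]
      refine Finset.sum_congr rfl fun l _ => ?_
      rw [hD.mul, add_mul, mul_assoc, mul_assoc]
    rw [h1, mul_add, mul_add]
    abel
  | add a b ha hb =>
    rw [map_add, map_add, map_add, map_add, ha, hb]
    have h1 : ∑ l, D l (a + b) * D k (δ (io l)) =
        ∑ l, D l a * D k (δ (io l)) + ∑ l, D l b * D k (δ (io l)) := by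
      rw [← Finset.sum_add_distrib]
      refine Finset.sum_congr rfl fun l _ => ?_
      rw [map_add, add_mul]
    rw [h1]
    abel

end Pool.AUT
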